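import Pool.Agent.Q169.SP.Sphere
import Pool.Agent.Q169.RC.Bdy

/-!
# The colouring criterion for a set of vertices
-/

set_option autoImplicit false

namespace Pool.Agent.Q169.SP

open Finset Pool.Agent.W907.SG Pool.Agent.W907.SM Pool.Agent.TH652.Above Pool.Agent.Q169.RC

/-- The criterion for the set `A` of vertices: there is a set `B` of vertices, coloured with `n / 2 + 1` colours
(adjacent vertices of `B` have different colours), such that all simplices with a vertex in `A` outside `B` are good
and, if `n` is odd, `χ_v = 0` for the vertices `v` of `A` outside `B`; here `χ_v` is the Euler characteristic of the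
right-angled Coxeter group of the link of `v`. -/
def Criterion {N : ℕ} (n : ℕ) (G : SimpleGraph (Fin N)) (A : Set (Fin N)) : Prop :=
  ∃ (B : Set (Fin N)) (κ : Fin N → Fin (n / 2 + 1)), (∀ u v, u ∈ B → v ∈ B → G.Adj u v → κ u ≠ κ v) ∧
    ∀ v, v ∈ A → v ∉ B → (∀ T : Finset (Fin N), v ∈ T → G.IsClique (T : Set (Fin N)) → Good n G T) ∧
      (Odd n → chiS G (G.neighborSet v) = 0)

theorem rel_van {n N : ℕ} (G : SimpleGraph (Fin N)) (hR : HSph n G) (h2 : IsHomologySphere (flagComplex G) n)
    (A : Set (Fin N)) (hA : Criterion n G A) (A' : Set (Fin N)) (hA' : A' ⊆ A) (i : ℕ) (hi : n < 2 * i) :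
    LV (G.induce A') i := by
  have hH : Pool.Agent.Y131.KS.HSph (flagComplex G) n := ⟨h2.1, h2.2.1, h2.2.2.1, h2.2.2.2⟩
  obtain ⟨B, κ, hκ, hB⟩ := hA
  exact Q_rel (k := n / 2) G (flagComplex G) (mem_flag G) hH hR (by omega) A B κ hκ hB A' hA' i hi

end Pool.Agent.Q169.SP
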