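import Pool.Agent.Q169.SP.Sphere
import Pool.Agent.Q169.RC.AtT

/-!
# Joins in a flag complex
-/

set_option autoImplicit false

namespace Pool.Agent.Q169.SP

open Finset Pool.Agent.Q169.RC

/-- the full subcomplex on `A` is the join of the `m` complexes `A_j = A ∩ p⁻¹(j)`, none of which is a simplex -/
def IsJoin {N m : ℕ} (G : SimpleGraph (Fin N)) (A : Set (Fin N)) (p : Fin N → Fin m) : Prop :=
  (∀ u ∈ A, ∀ v ∈ A, p u ≠ p v → G.Adj u v) ∧
  ∀ j, ∃ s ∈ A, ∃ t ∈ A, p s = j ∧ p t = j ∧ s ≠ t ∧ ¬ G.Adj s t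

/-- the product of the numbers `-4 χ(A_j)`, `χ` the Euler characteristic of the right-angled Coxeter group of `A_j`;
`-4 χ = 2 k - 4` for a complex `A_j` consisting of `k` points -/
noncomputable def prodChi {N m : ℕ} (G : SimpleGraph (Fin N)) (A : Set (Fin N)) (p : Fin N → Fin m) : ℚ :=
  ∏ j : Fin m, (- 4 * chiS G (A ∩ {v | p v = j}))

theorem prodChi_eq {N m : ℕ} (G : SimpleGraph (Fin N)) (A : Set (Fin N)) (p : Fin N → Fin m) :
    prodChi G A p = 4 ^ m * ∏ j : Fin m, (- chiS G (A ∩ {v | p v = j})) := by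
  unfold prodChi
  have h : ∀ j : Fin m, (- 4 * chiS G (A ∩ {v | p v = j})) = 4 * (- chiS G (A ∩ {v | p v = j})) := fun j => by ring
  rw [prod_congr rfl (fun j _ => h j), prod_mul_distrib, prod_const, card_univ, Fintype.card_fin]

end Pool.Agent.Q169.SP
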