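import Pool.Agent.Q169.RC.Bdy

/-!
# Coxeter groups with one nonzero `ℓ²`-Betti number
-/

set_option autoImplicit false

namespace Pool.Agent.Q169.SP

open Finset Pool.Agent.W907.SG Pool.Agent.W907.SM Pool.Agent.TH652.Above Pool.Agent.Q169.RC Pool.Agent.Y132.SI

/-- The `ℓ²`-homology of `W G` vanishes in the degrees `i ≠ m`, and the `m`-th `ℓ²`-Betti number is `x`, in the
following sense: for each `ε > 0` there is a finite set `E` of nontrivial elements such that for each subgroup `H` of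
finite index which contains no conjugate of an element of `E` and each `i` the `i`-th real Betti number of `H` differs
from `x [W G : H]` (`i = m`) or `0` (`i ≠ m`) by at most `ε [W G : H]`. -/
def OnlyMiddle {V : Type} [Fintype V] [LinearOrder V] (m : ℕ) (G : SimpleGraph V) (x : ℚ) : Prop :=
  (∀ i : ℕ, i ≠ m → L2Van G i) ∧
  ∀ ε : ℝ, 0 < ε → ∃ E : Finset (W G), (1 : W G) ∉ E ∧ ∀ H : Subgroup (W G), H.FiniteIndex →
    (∀ g ∈ E, ∀ y : W G, y * g * y⁻¹ ∉ H) → ∀ i : ℕ,
      |(Module.finrank ℝ (HInv G H i) : ℝ) - (if i = m then (x : ℝ) else 0) * H.index| ≤ ε * H.index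

theorem onlyMiddle {V : Type} [Fintype V] [LinearOrder V] (m : ℕ) (G : SimpleGraph V) (x : ℚ)
    (h : ∀ i : ℕ, i ≠ m → L2Van G i) (hx : (-1) ^ m * chiW G = x) : OnlyMiddle m G x := by
  refine ⟨h, fun ε hε => ?_⟩
  obtain ⟨E, h1, h2⟩ := growth_free G (2 * m) (fun i hi => h i (by omega)) ε hε
  refine ⟨E, h1, fun H hH hE i => ?_⟩
  have h3 := h2 H hH hE i
  have h4 : (if 2 * i = 2 * m then (-1 : ℝ) ^ i * (chiW G : ℝ) else 0) = (if i = m then (x : ℝ) else 0) := by
    by_cases hi : i = m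
    · subst hi
      rw [if_pos rfl, if_pos rfl, ← hx]
      push_cast
      ring
    · rw [if_neg hi, if_neg (by omega)]
  rw [h4] at h3
  exact h3

end Pool.Agent.Q169.SP
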