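import Pool.Agent.Q169.SP.Sphere
import Pool.Agent.Q169.RC.Wt

/-!
# Weights of the edges and orders of the faces
-/

set_option autoImplicit false

namespace Pool.Agent.Q169.SP

open Finset

/-- The conditions on the weights `w` of the edges and the orders `O` of the faces: (1) `O ∅ = 1`,
(2) `O {v} = 2`, (3) `O e = 2 w e` with `w e ≥ 2` for each edge `e`, (4) `O (A ∪ B) = O A * O B` if
`A ∪ B` is a face and all edges between `A` and `B` have weight `2`, (5) for each face `T` with at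
least three vertices which is connected by edges of weight at least `3`, the sum of the
`(-1/2)^|T \ U| / O U`, `U ⊆ T`, is zero if `|T|` is odd and has the sign `(-1)^j`, or is zero, if
`|T| = 2 j`. -/
structure Orders {β : Type} [DecidableEq β] (F : Finset (Finset β)) (w : Finset β → ℕ)
    (O : Finset β → ℚ) : Prop where
  two_le : ∀ e ∈ F, e.card = 2 → 2 ≤ w e
  empty : O ∅ = 1
  vertex : ∀ v, {v} ∈ F → O {v} = 2
  edge : ∀ e ∈ F, e.card = 2 → O e = 2 * w e
  mul : ∀ A B : Finset β, Disjoint A B → A ∪ B ∈ F → (∀ a ∈ A, ∀ b ∈ B, w {a, b} = 2) →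
    O (A ∪ B) = O A * O B
  sign : ∀ T ∈ F, 3 ≤ T.card →
    (∀ A ⊆ T, A.Nonempty → A ≠ T → ∃ a ∈ A, ∃ b ∈ T, b ∉ A ∧ w {a, b} ≠ 2) →
    (Odd T.card → ∑ U ∈ T.powerset, (-1 / 2) ^ (T.card - U.card) / O U = 0) ∧
    ∀ j, T.card = 2 * j → 0 ≤ (-1) ^ j * ∑ U ∈ T.powerset, (-1 / 2) ^ (T.card - U.card) / O U

theorem Orders.good {β : Type} [DecidableEq β] {F : Finset (Finset β)}
    (hF : ∀ T ∈ F, ∀ U ⊆ T, U ∈ F) {w : Finset β → ℕ} {O : Finset β → ℚ} (h : Orders F w O) :
    Y365.FS.GoodOrders F O :=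
  Y365.FS.goodOrders_of hF w h.two_le O h.empty h.vertex h.edge h.mul h.sign

end Pool.Agent.Q169.SP
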