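import Pool.Agent.Q169.SP.Orders

/-!
# Joins in the links of a flag complex with weights
-/

set_option autoImplicit false

namespace Pool.Agent.Q169.SP.Wj

open Finset Pool.Agent.W907.SG Pool.Agent.W907.SM Pool.Agent.TH652.Above Pool.Agent.Q169.RC
open Pool.Agent.Q169.SP

/-- the coefficient of the link of `T` -/
def coef {β : Type} [DecidableEq β] (O : Finset β → ℚ) (T : Finset β) : ℚ :=
  (-1) ^ (T.card / 2) * ∑ U ∈ T.powerset, (-1 / 2) ^ (T.card - U.card) / O U

/-- the full subcomplex on `A` is the join of the `k` complexes `A_j = {v ∈ A | p v = j}`, `j < k`, none of which is a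
simplex (for `k = 0` the set `A` is empty) -/
def IsJoin {N : ℕ} (G : SimpleGraph (Fin N)) (k : ℕ) (A : Set (Fin N)) (p : Fin N → ℕ) : Prop :=
  (∀ u ∈ A, p u < k) ∧ (∀ u ∈ A, ∀ v ∈ A, p u ≠ p v → G.Adj u v) ∧
  ∀ j < k, ∃ s ∈ A, ∃ t ∈ A, p s = j ∧ p t = j ∧ s ≠ t ∧ ¬ G.Adj s t

/-- the product of the numbers `-χ(A_j)`, `j < k`, `χ` the Euler characteristic of the right-angled Coxeter group of
`A_j = {v ∈ A | p v = j}`; `-χ = l / 2 - 1` for a complex `A_j` consisting of `l` points -/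
noncomputable def prodChi {N : ℕ} (G : SimpleGraph (Fin N)) (k : ℕ) (A : Set (Fin N)) (p : Fin N → ℕ) : ℚ :=
  ∏ j ∈ range k, (- chiS G (A ∩ {v | p v = j}))

/-- the lower bound for the link of a simplex `T` with `2 * m - 2 * k` vertices -/
theorem join_le {m N : ℕ} (G : SimpleGraph (Fin N)) (K : Finset (Finset (Fin N)))
    (hK : ∀ S : Finset (Fin N), S ∈ K ↔ G.IsClique (S : Set (Fin N)))
    (h2 : Pool.Agent.Y131.KS.HSph K (2 * m)) (hR : HSph (2 * m) G)
    (hg : ∀ T : Finset (Fin N), G.IsClique (T : Set (Fin N)) → Good (2 * m) G T)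
    (T : Finset (Fin N)) (hT : G.IsClique (T : Set (Fin N))) (k : ℕ) (hk : 2 * m = T.card + 2 * k)
    (A : Set (Fin N)) (hA : A ⊆ lk G T) (p : Fin N → ℕ) (hp : IsJoin G k A p) :
    prodChi G k A p ≤ (-1 : ℚ) ^ k * chiS G (lk G T) := by
  classical
  rcases Nat.eq_zero_or_pos k with rfl | hk0
  · have h1 : lk G T = ∅ := by
      rw [Set.eq_empty_iff_forall_notMem]
      intro v hv
      have h3 := h2.card_le _ ((hK _).2 (clique_insert hT hv))
      rw [card_insert_of_notMem (notMem_of_lk hv)] at h3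
      omega
    have h4 : chiS G (∅ : Set (Fin N)) = 1 := by
      unfold chiS
      rw [Finset.sum_eq_single (∅ : Finset (Fin N))]
      · simp
      · intro S _ hS
        rw [if_neg]
        rintro ⟨-, h5⟩
        exact hS (Finset.coe_eq_empty.1 (Set.subset_empty_iff.1 h5))
      · intro h
        exact absurd (mem_univ _) h
    rw [h1, h4]
    simp [prodChi]
  · have hval : ∀ u, p u < k → ((if h : p u < k then ⟨p u, h⟩ else ⟨0, hk0⟩ : Fin k) : ℕ) = p u := by
      intro u hu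
      rw [dif_pos hu]
    have h3 := join_at G K hK h2 hR T hT hk (fun T' _ hc => hg T' hc) A hA
      (fun u => if h : p u < k then ⟨p u, h⟩ else ⟨0, hk0⟩)
      (fun u hu v hv huv => hp.2.1 u hu v hv (fun h => huv (Fin.ext (by
        show ((if h : p u < k then ⟨p u, h⟩ else ⟨0, hk0⟩ : Fin k) : ℕ) =
          ((if h : p v < k then ⟨p v, h⟩ else ⟨0, hk0⟩ : Fin k) : ℕ)
        rw [hval u (hp.1 u hu), hval v (hp.1 v hv), h]))))
      (fun j => by
        obtain ⟨s, hs, t, ht, h4, h5, h6, h7⟩ := hp.2.2 j j.2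
        refine ⟨s, hs, t, ht, Fin.ext ?_, Fin.ext ?_, h6, h7⟩
        · show ((if h : p s < k then ⟨p s, h⟩ else ⟨0, hk0⟩ : Fin k) : ℕ) = j
          rw [hval s (hp.1 s hs), h4]
        · show ((if h : p t < k then ⟨p t, h⟩ else ⟨0, hk0⟩ : Fin k) : ℕ) = j
          rw [hval t (hp.1 t ht), h5])
    refine le_of_eq_of_le ?_ h3
    unfold prodChi
    rw [← Fin.prod_univ_eq_prod_range (fun j => - chiS G (A ∩ {v | p v = j})) k]
    refine prod_congr rfl fun j _ => ?_
    congr 2
    ext v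
    simp only [Set.mem_inter_iff, Set.mem_setOf_eq]
    refine and_congr_right fun hv => ?_
    constructor
    · intro h
      refine Fin.ext ?_
      rw [hval v (hp.1 v hv), h]
    · intro h
      rw [← h, hval v (hp.1 v hv)]

theorem sum_le {m N : ℕ} (G : SimpleGraph (Fin N)) (K : Finset (Finset (Fin N)))
    (hK : ∀ S : Finset (Fin N), S ∈ K ↔ G.IsClique (S : Set (Fin N)))
    (h2 : Pool.Agent.Y131.KS.HSph K (2 * m)) (hR : HSph (2 * m) G)
    (hg : ∀ T : Finset (Fin N), G.IsClique (T : Set (Fin N)) → Good (2 * m) G T)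
    (O : Finset (Fin N) → ℚ) (hO : Y365.FS.GoodOrders K O)
    (C : Finset (Finset (Fin N))) (A : Finset (Fin N) → Set (Fin N)) (p : Finset (Fin N) → Fin N → ℕ)
    (hC : ∀ T ∈ C, G.IsClique (T : Set (Fin N)) ∧ Even T.card ∧ A T ⊆ lk G T ∧
      IsJoin G (m - T.card / 2) (A T) (p T)) :
    ∑ T ∈ C, coefO O T * prodChi G (m - T.card / 2) (A T) (p T) ≤
      (-1 : ℚ) ^ m * ∑ σ ∈ K, (-1) ^ σ.card / O σ := by
  classical
  rw [weighted_even G K hK h2.card_le O hO]
  have hsub : C ⊆ K.filter (fun T => Even T.card) := by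
    intro T hT
    exact mem_filter.2 ⟨(hK _).2 (hC T hT).1, (hC T hT).2.1⟩
  refine (sum_le_sum fun T hT => ?_).trans (sum_le_sum_of_subset_of_nonneg hsub fun T hT _ => ?_)
  · obtain ⟨h3, h4, h5, h6⟩ := hC T hT
    refine mul_le_mul_of_nonneg_left ?_ (coefO_nonneg hO ((hK _).2 h3) h4)
    have hTm := h2.card_le _ ((hK _).2 h3)
    obtain ⟨j, hj⟩ := h4
    exact join_le G K hK h2 hR hg T h3 _ (by omega) (A T) h5 (p T) h6
  · obtain ⟨hT1, hT2⟩ := mem_filter.1 hT
    refine mul_nonneg (coefO_nonneg hO hT1 hT2) ?_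
    exact sign_links G K hK h2 hR ∅ (fun _ => 0) (fun u _ hu => absurd hu (Set.notMem_empty u))
      (fun v _ T' _ hc => hg T' hc) T ((hK _).1 hT1) hT2

theorem coef_edge {β : Type} [DecidableEq β] {F : Finset (Finset β)}
    (hF : ∀ T ∈ F, ∀ U ⊆ T, U ∈ F) {w : Finset β → ℕ} {O : Finset β → ℚ} (h : Orders F w O)
    {e : Finset β} (he : e ∈ F) (h2 : e.card = 2) : coef O e = ((w e : ℚ) - 2) / (4 * w e) := by
  obtain ⟨a, b, hab, rfl⟩ := Finset.card_eq_two.1 h2
  have h3 : ({b} : Finset β).powerset = {∅, {b}} := by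
    ext A
    simp [Finset.subset_singleton_iff]
  have h4 := h.edge _ he h2
  have h5 := h.vertex a (hF _ he _ (by simp))
  have h6 := h.vertex b (hF _ he _ (by simp))
  have h7 := h.two_le _ he h2
  have h8 : (0 : ℚ) < w {a, b} := by exact_mod_cast (by omega : 0 < w {a, b})
  have h9 : a ∉ ({b} : Finset β) := by
    rw [Finset.mem_singleton]
    exact hab
  unfold coef
  rw [h2, Finset.sum_powerset_insert h9, h3, Finset.sum_pair (Finset.singleton_ne_empty b).symm,
    Finset.sum_pair (Finset.singleton_ne_empty b).symm, h2, h4, h.empty, h6]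
  simp only [Finset.card_empty, Finset.card_singleton, insert_empty_eq, h5]
  field_simp
  ring

end Pool.Agent.Q169.SP.Wj
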